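import Mathlib

/-!
# Sizes: `g ^ b` against `G ^ j` for `2 b ≤ j`
-/

set_option autoImplicit false

namespace Pool.Agent.Helper53.MX

open Filter

/-- If `g < G ^ 2` then `A g ^ b ≤ δ G ^ j` for all large `j` and all `b` with `2 b ≤ j`. -/
theorem size_gen (g G A δ : ℝ) (hg : 1 ≤ g) (hG : 0 < G) (hgG : g < G ^ 2) (hδ : 0 < δ) :
    ∀ᶠ j : ℕ in atTop, ∀ b : ℕ, 2 * b ≤ j → A * g ^ b ≤ δ * G ^ j := by
  have hg0 : 0 < g := by linarith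
  have hs : Real.sqrt g < G := by
    rw [Real.sqrt_lt' hG]
    exact hgG
  have hs1 : 1 ≤ Real.sqrt g := Real.one_le_sqrt.mpr hg
  have hq0 : 0 ≤ Real.sqrt g / G := by positivity
  have hq1 : Real.sqrt g / G < 1 := by
    rw [div_lt_one hG]
    exact hs
  have ht := tendsto_pow_atTop_nhds_zero_of_lt_one hq0 hq1
  have hA : 0 < δ / (|A| + 1) := by positivity
  filter_upwards [ht.eventually (gt_mem_nhds hA)] with j hj b hb
  have h1 : g ^ b ≤ Real.sqrt g ^ j := by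
    calc g ^ b = Real.sqrt g ^ (2 * b) := by
          rw [pow_mul, Real.sq_sqrt hg0.le]
      _ ≤ Real.sqrt g ^ j := pow_le_pow_right₀ hs1 hb
  rw [div_pow, div_lt_iff₀ (by positivity)] at hj
  have hA1 : 0 < |A| + 1 := by positivity
  have h2 : (|A| + 1) * Real.sqrt g ^ j ≤ δ * G ^ j := by
    have h3 : Real.sqrt g ^ j ≤ δ / (|A| + 1) * G ^ j := hj.le
    calc (|A| + 1) * Real.sqrt g ^ j ≤ (|A| + 1) * (δ / (|A| + 1) * G ^ j) :=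
          mul_le_mul_of_nonneg_left h3 hA1.le
      _ = δ * G ^ j := by field_simp
  have hp : 0 ≤ g ^ b := by positivity
  calc A * g ^ b ≤ (|A| + 1) * g ^ b := by
        refine mul_le_mul_of_nonneg_right ?_ hp
        linarith [le_abs_self A]
    _ ≤ (|A| + 1) * Real.sqrt g ^ j := mul_le_mul_of_nonneg_left h1 hA1.le
    _ ≤ δ * G ^ j := h2

/-- Powers of `3` against powers of `2`. -/
theorem size_three (A : ℝ) {δ : ℝ} (hδ : 0 < δ) :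
    ∀ᶠ j : ℕ in atTop, ∀ b : ℕ, 2 * b ≤ j → A * 3 ^ b ≤ δ * 2 ^ j :=
  size_gen 3 2 A δ (by norm_num) (by norm_num) (by norm_num) hδ

/-- Powers of `4` against powers of `3`. -/
theorem size_four (A : ℝ) {δ : ℝ} (hδ : 0 < δ) :
    ∀ᶠ j : ℕ in atTop, ∀ b : ℕ, 2 * b ≤ j → A * 4 ^ b ≤ δ * 3 ^ j :=
  size_gen 4 3 A δ (by norm_num) (by norm_num) (by norm_num) hδ

/-- `π k 3 ^ b ≤ ‖c‖ 2 ^ j` for `2 b ≤ j`, `j` large. -/
theorem size_row_three (k : ℕ) {c : ℂ} (hc : c ≠ 0) :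
    ∀ᶠ j : ℕ in atTop, ∀ b : ℕ, 2 * b ≤ j → Real.pi * k * 3 ^ b ≤ ‖c‖ * 2 ^ j :=
  size_three (Real.pi * k) (norm_pos_iff.mpr hc)

/-- `π k 4 ^ b ≤ ‖c‖ 3 ^ j` for `2 b ≤ j`, `j` large. -/
theorem size_row_four (k : ℕ) {c : ℂ} (hc : c ≠ 0) :
    ∀ᶠ j : ℕ in atTop, ∀ b : ℕ, 2 * b ≤ j → Real.pi * k * 4 ^ b ≤ ‖c‖ * 3 ^ j :=
  size_four (Real.pi * k) (norm_pos_iff.mpr hc)

end Pool.Agent.Helper53.MX
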