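import Pool.Agent.Helper87.MX.Fr4
import Pool.Agent.Helper53.MX.Sizes

/-!
# MixingRates: complete convergence along powers of three
-/

set_option autoImplicit false

namespace Pool.Agent.Helper53.MX

open MeasureTheory Finset Filter Pool.Agent.Helper87.MX
open Pool.Agent.Helper25.MX (psi psi_summable)

theorem inv_pow {μ : Measure Tor} (h2 : Inv 2 μ) (l : ℕ) :
    MeasurePreserving (fun x : Tor => (2 ^ l : ℕ) • x) μ μ := by
  induction l with
  | zero =>
    have e : (fun x : Tor => (2 ^ 0 : ℕ) • x) = id := by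
      funext x
      simp
    rw [e]
    exact MeasurePreserving.id μ
  | succ l ih =>
    have e : (fun x : Tor => (2 ^ (l + 1) : ℕ) • x) =
        (fun x : Tor => (2 ^ l : ℕ) • x) ∘ fun x : Tor => (2 : ℕ) • x := by
      funext x
      simp only [Function.comp_apply]
      rw [← mul_nsmul', pow_succ]
    rw [e]
    exact ih.comp h2

theorem fourier_nsmul (m : ℤ) (n : ℕ) (x : Tor) :
    (fourier m (n • x) : ℂ) = fourier (m * n) x := by
  rw [fourier_apply, fourier_apply]
  congr 2
  rw [mul_smul, natCast_zsmul]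

theorem rav_nsmul (k l : ℕ) (F : Finset ℕ) (x : Tor) :
    rav 3 k F ((2 ^ l : ℕ) • x) = rav 3 (2 ^ l * k) F x := by
  unfold rav
  congr 1
  refine sum_congr rfl fun b _ => ?_
  rw [fourier_nsmul]
  congr 2
  push_cast
  ring

theorem cf_two {μ : Measure Tor} (h2 : Inv 2 μ) (k l : ℕ) :
    cf μ ((2 ^ l * k : ℕ) : ℤ) = cf μ (k : ℤ) := by
  unfold cf
  have h := inv_pow h2 l
  have hm : AEStronglyMeasurable (fun x : Tor => (fourier (k : ℤ) x : ℂ)) (Measure.map (fun x : Tor => (2 ^ l : ℕ) • x) μ) :=
    (fourier (k : ℤ)).continuous.aestronglyMeasurable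
  have h1 := integral_map h.measurable.aemeasurable hm
  rw [h.map_eq] at h1
  rw [h1]
  refine integral_congr_ae (Filter.Eventually.of_forall fun x => ?_)
  simp only
  rw [fourier_nsmul]
  congr 1
  push_cast
  ring_nf

theorem rav_cont (g k : ℕ) (F : Finset ℕ) : Continuous (fun x : Tor => rav g k F x) := by
  unfold rav
  exact (continuous_finsetSum _ fun b _ => (fourier _).continuous).div_const _

theorem bad_eq {μ : Measure Tor} (h2 : Inv 2 μ) (k l : ℕ) (F : Finset ℕ) (c : ℂ) (δ : ℝ) :
    μ.real {x | δ ≤ ‖rav 3 (2 ^ l * k) F x - c‖} = μ.real {x | δ ≤ ‖rav 3 k F x - c‖} := by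
  have h := inv_pow h2 l
  have hm : MeasurableSet {x : Tor | δ ≤ ‖rav 3 k F x - c‖} :=
    (isClosed_le continuous_const (((rav_cont 3 k F).sub continuous_const).norm)).measurableSet
  have h1 := h.measure_preimage hm.nullMeasurableSet
  unfold Measure.real
  rw [← h1]
  congr 2
  ext x
  simp only [Set.mem_preimage, Set.mem_ofPred_eq]
  rw [rav_nsmul]

theorem summable_half {f : ℕ → ℝ} (hf : Summable f) : Summable fun j : ℕ => f (j / 2) := by
  have h0 : HasSum (fun j : ℕ => f (2 * j / 2)) (∑' j, f j) := by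
    have e : (fun j : ℕ => f (2 * j / 2)) = f := by
      funext j
      rw [Nat.mul_div_cancel_left _ (by norm_num)]
    rw [e]
    exact hf.hasSum
  have h1 : HasSum (fun j : ℕ => f ((2 * j + 1) / 2)) (∑' j, f j) := by
    have e : (fun j : ℕ => f ((2 * j + 1) / 2)) = f := by
      funext j
      congr 1
      omega
    rw [e]
    exact hf.hasSum
  exact (HasSum.even_add_odd (f := fun j : ℕ => f (j / 2)) h0 h1).summable

theorem s_CC (hRG2 : S_RG2) (hRO : S_RO) : S_CC := by
  intro μ hμ h2 h3 k F hk hc hF hs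
  obtain ⟨l, k', hk'odd, hkk⟩ := Nat.exists_eq_two_pow_mul_odd (n := k) (by omega)
  have hck : cf μ (k' : ℤ) = cf μ (k : ℤ) := by
    rw [hkk, cf_two h2]
  set c : ℂ := cf μ (k : ℤ) with hcdef
  have hcn : 0 < ‖c‖ := norm_pos_iff.mpr hc
  -- the bad sets for the odd number `k'`
  have hbad : ∀ N, μ.real {x | ‖c‖ / 2 ≤ ‖rav 3 k (F N) x - c‖} = μ.real {x | ‖c‖ / 2 ≤ ‖rav 3 k' (F N) x - c‖} := by
    intro N
    conv_lhs => rw [hkk]
    exact bad_eq h2 k' l (F N) c _
  simp_rw [hbad] at hs
  obtain ⟨J, hJ⟩ := Filter.eventually_atTop.1 (size_row_three k' hc)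
  set P : ℕ → Tor → ℂ := fun j => if J ≤ j then fun x => rav 3 k' (F (j / 2)) x / c else fun _ => 0 with hP
  have hodd : ∀ j, OddLip j (P j) := by
    intro j
    by_cases hj : J ≤ j
    · have e : P j = fun x => rav 3 k' (F (j / 2)) x / c := by
        rw [hP]
        simp only [if_pos hj]
      rw [e]
      refine hRO k' j c (F (j / 2)) hk'odd hc fun b hb => ?_
      refine hJ j hj b ?_
      have := hF (j / 2) b hb
      omega
    · have e : P j = fun _ => 0 := by
        rw [hP]
        simp only [if_neg hj]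
      rw [e]
      refine ⟨fun x => by simp, fun x y => ?_⟩
      simp only [sub_self, norm_zero]
      positivity
  have hfar : ∀ j, far μ (P j) = if J ≤ j then μ.real {x | ‖c‖ / 2 ≤ ‖rav 3 k' (F (j / 2)) x - c‖}
      else far μ (fun _ => 0) := by
    intro j
    by_cases hj : J ≤ j
    · rw [if_pos hj, hP]
      simp only [if_pos hj]
      unfold far
      congr 1
      ext x
      simp only [Set.mem_ofPred_eq]
      have e : rav 3 k' (F (j / 2)) x / c - 1 = (rav 3 k' (F (j / 2)) x - c) / c := by
        field_simp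
      rw [e, norm_div, le_div_iff₀ hcn]
      constructor <;> intro h <;> linarith
    · rw [if_neg hj, hP]
      simp only [if_neg hj]
  have hsum : Summable fun j => far μ (P j) := by
    have h5 := summable_half hs
    rw [← summable_nat_add_iff J] at h5 ⊢
    refine h5.congr fun j => ?_
    rw [hfar, if_pos (by omega)]
  have h0 : ∀ j, 0 ≤ far μ (P j) := fun j => measureReal_nonneg
  have h1 : ∀ j, far μ (P j) ≤ 1 := fun j => measureReal_le_one
  have hpsi := psi_summable h0 h1 hsum
  refine hRG2 μ hμ h2 h3 P hodd ?_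
  refine Summable.of_nonneg_of_le (fun j => ?_) (fun j => ?_) hpsi
  · have hl : 0 ≤ Real.log ((j : ℝ) + 2) := Real.log_nonneg (by
      have : (0 : ℝ) ≤ j := Nat.cast_nonneg j
      linarith)
    have := Real.negMulLog_nonneg (h0 j) (h1 j)
    have := h0 j
    positivity
  · have hl : 0 ≤ Real.log ((j : ℝ) + 2) := Real.log_nonneg (by
      have : (0 : ℝ) ≤ j := Nat.cast_nonneg j
      linarith)
    refine div_le_div_of_nonneg_right ?_ hl
    unfold psi
    have h8 : 0 ≤ Real.log 8 := Real.log_nonneg (by norm_num)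
    have := h0 j
    nlinarith

end Pool.Agent.Helper53.MX
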