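import Mathlib

/-!
# Windows: the numbers `a X + b Y` in `[U, U + η)`
-/

set_option autoImplicit false

namespace Pool.Agent.Helper53.MX

/-- Some positive multiple of `Y` is near a multiple of `X`. -/
theorem near_mult {X Y η : ℝ} (hX : 0 < X) (hirr : Irrational (Y / X)) (hη : 0 < η) :
    ∃ (n : ℕ) (m : ℤ), 0 < n ∧ (n * Y - m * X) ≠ 0 ∧ |n * Y - m * X| < η := by
  obtain ⟨N, hN⟩ := exists_nat_gt (X / η)
  have hN0 : 0 < N := by
    have : 0 < X / η := div_pos hX hη
    exact_mod_cast this.trans hN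
  obtain ⟨j, k, hk0, hkN, hjk⟩ := Real.exists_int_int_abs_mul_sub_le (Y / X) hN0
  refine ⟨k.toNat, j, by omega, ?_, ?_⟩
  · intro h0
    have hk : ((k.toNat : ℕ) : ℝ) = (k : ℝ) := by
      have : ((k.toNat : ℕ) : ℤ) = k := Int.toNat_of_nonneg hk0.le
      exact_mod_cast congrArg (fun z : ℤ => (z : ℝ)) this
    rw [hk] at h0
    apply hirr
    refine ⟨(j : ℚ) / (k : ℚ), ?_⟩
    have hkR : (k : ℝ) ≠ 0 := by exact_mod_cast hk0.ne'
    push_cast
    rw [div_eq_div_iff hkR hX.ne']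
    linarith
  · have hk : ((k.toNat : ℕ) : ℝ) = (k : ℝ) := by
      have : ((k.toNat : ℕ) : ℤ) = k := Int.toNat_of_nonneg hk0.le
      exact_mod_cast congrArg (fun z : ℤ => (z : ℝ)) this
    rw [hk]
    have e : (k : ℝ) * Y - j * X = ((k : ℝ) * (Y / X) - j) * X := by field_simp
    rw [e, abs_mul, abs_of_pos hX]
    have hN1 : (0 : ℝ) < (N : ℝ) + 1 := by positivity
    have h1 : |(k : ℝ) * (Y / X) - j| ≤ 1 / ((N : ℝ) + 1) := by
      have := hjk
      rw [abs_sub_comm]
      rw [abs_sub_comm] at this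
      convert this using 2
    calc |(k : ℝ) * (Y / X) - j| * X ≤ 1 / ((N : ℝ) + 1) * X := mul_le_mul_of_nonneg_right h1 hX.le
      _ < η := by
        rw [one_div, inv_mul_lt_iff₀ hN1]
        have : X < N * η := by
          rw [div_lt_iff₀ hη] at hN
          exact hN
        nlinarith

/-- There is `L` so that every half-open interval of length `η` contains a number `a X + b Y` with `b` in any given
interval of length `L`. -/
theorem exists_window {X Y η : ℝ} (hX : 0 < X) (hY : 0 < Y) (hirr : Irrational (Y / X)) (hη : 0 < η) :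
    ∃ L : ℕ, 0 < L ∧ ∀ (U : ℝ) (b0 : ℕ), ((b0 : ℝ) + L) * Y ≤ U →
      ∃ a b : ℕ, b0 ≤ b ∧ b < b0 + L ∧ U ≤ a * X + b * Y ∧ a * X + b * Y < U + η := by
  obtain ⟨n, m, hn, hne, hlt⟩ := near_mult hX hirr hη
  set δ : ℝ := n * Y - m * X with hδ
  obtain ⟨K, hK⟩ := exists_nat_gt (X / |δ| + 1)
  have hδ0 : 0 < |δ| := abs_pos.mpr hne
  refine ⟨n * K + 1, by positivity, ?_⟩
  intro U b0 hU
  -- it is enough to find `k < K` and an integer `a`
  suffices h : ∃ (k : ℕ) (z : ℤ), k < K ∧ U - b0 * Y ≤ z * X + (n * k : ℕ) * Y ∧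
      z * X + (n * k : ℕ) * Y < U - b0 * Y + η by
    obtain ⟨k, z, hk, h1, h2⟩ := h
    have hkn : n * k < n * K + 1 := by
      have := Nat.mul_le_mul_left n hk.le
      omega
    have hz : 0 ≤ z := by
      by_contra hneg
      have hz1 : (z : ℝ) ≤ 0 := by exact_mod_cast (not_le.mp hneg).le
      have hzX : (z : ℝ) * X ≤ 0 := mul_nonpos_of_nonpos_of_nonneg hz1 hX.le
      have h3 : ((n * k : ℕ) : ℝ) * Y < ((n * K + 1 : ℕ) : ℝ) * Y :=
        mul_lt_mul_of_pos_right (by exact_mod_cast hkn) hY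
      have h4 : ((b0 : ℝ) + ((n * K + 1 : ℕ) : ℝ)) * Y = b0 * Y + ((n * K + 1 : ℕ) : ℝ) * Y := by ring
      rw [h4] at hU
      linarith
    have hzc : ((z.toNat : ℕ) : ℝ) = (z : ℝ) := by
      have : ((z.toNat : ℕ) : ℤ) = z := Int.toNat_of_nonneg hz
      exact_mod_cast congrArg (fun z : ℤ => (z : ℝ)) this
    refine ⟨z.toNat, b0 + n * k, by omega, by omega, ?_, ?_⟩
    · rw [hzc]
      push_cast
      push_cast at h1
      linarith
    · rw [hzc]
      push_cast
      push_cast at h2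
      linarith
  set V : ℝ := U - b0 * Y with hV
  rcases lt_or_gt_of_ne hne with hneg | hpos
  · -- `δ < 0`
    have hab : |δ| = -δ := abs_of_neg hneg
    set z0 : ℤ := ⌈V / X⌉ with hz0
    set r : ℝ := z0 * X - V with hr
    have hr0 : 0 ≤ r := by
      have : V / X ≤ z0 := Int.le_ceil _
      rw [div_le_iff₀ hX] at this
      linarith
    have hrX : r < X := by
      have : (z0 : ℝ) < V / X + 1 := Int.ceil_lt_add_one _
      have h5 : (z0 : ℝ) * X < (V / X + 1) * X := mul_lt_mul_of_pos_right this hX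
      have h6 : (V / X + 1) * X = V + X := by field_simp
      linarith
    set k : ℕ := ⌊r / |δ|⌋₊ with hk
    have hk1 : (k : ℝ) * |δ| ≤ r := by
      have := Nat.floor_le (div_nonneg hr0 hδ0.le)
      rwa [le_div_iff₀ hδ0] at this
    have hk2 : r < ((k : ℝ) + 1) * |δ| := by
      have := Nat.lt_floor_add_one (r / |δ|)
      rwa [div_lt_iff₀ hδ0] at this
    refine ⟨k, z0 - k * m, ?_, ?_, ?_⟩
    · have h7 : (k : ℝ) ≤ X / |δ| := by
        rw [le_div_iff₀ hδ0]
        linarith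
      have : (k : ℝ) < K := by linarith
      exact_mod_cast this
    · have e : ((z0 - k * m : ℤ) : ℝ) * X + ((n * k : ℕ) : ℝ) * Y = V + (r - k * |δ|) := by
        rw [hab, hδ, hr]
        push_cast
        ring
      rw [e]
      linarith
    · have e : ((z0 - k * m : ℤ) : ℝ) * X + ((n * k : ℕ) : ℝ) * Y = V + (r - k * |δ|) := by
        rw [hab, hδ, hr]
        push_cast
        ring
      rw [e]
      linarith
  · -- `0 < δ`
    have hab : |δ| = δ := abs_of_pos hpos
    set z0 : ℤ := ⌊V / X⌋ with hz0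
    set r : ℝ := V - z0 * X with hr
    have hr0 : 0 ≤ r := by
      have : (z0 : ℝ) ≤ V / X := Int.floor_le _
      rw [le_div_iff₀ hX] at this
      linarith
    have hrX : r < X := by
      have : V / X < z0 + 1 := Int.lt_floor_add_one _
      rw [div_lt_iff₀ hX] at this
      linarith
    set k : ℕ := ⌈r / |δ|⌉₊ with hk
    have hk1 : r ≤ (k : ℝ) * |δ| := by
      have := Nat.le_ceil (r / |δ|)
      rwa [div_le_iff₀ hδ0] at this
    have hk2 : (k : ℝ) * |δ| < r + |δ| := by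
      have := Nat.ceil_lt_add_one (div_nonneg hr0 hδ0.le)
      have h5 : (k : ℝ) * |δ| < (r / |δ| + 1) * |δ| := mul_lt_mul_of_pos_right this hδ0
      have h6 : (r / |δ| + 1) * |δ| = r + |δ| := by field_simp
      linarith
    refine ⟨k, z0 - k * m, ?_, ?_, ?_⟩
    · have h7 : (k : ℝ) < X / |δ| + 1 := by
        have h8 : ((k : ℝ) - 1) * |δ| < X := by linarith
        have h9 : (k : ℝ) - 1 < X / |δ| := by
          rw [lt_div_iff₀ hδ0]
          exact h8
        linarith
      have : (k : ℝ) < K := by linarith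
      exact_mod_cast this
    · have e : ((z0 - k * m : ℤ) : ℝ) * X + ((n * k : ℕ) : ℝ) * Y = V + (k * |δ| - r) := by
        rw [hab, hδ, hr]
        push_cast
        ring
      rw [e]
      linarith
    · have e : ((z0 - k * m : ℤ) : ℝ) * X + ((n * k : ℕ) : ℝ) * Y = V + (k * |δ| - r) := by
        rw [hab, hδ, hr]
        push_cast
        ring
      rw [e]
      linarith

/-- `log 3 / log 2` is irrational. -/
theorem irrational_log : Irrational (Real.log 3 / Real.log 2) := by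
  rw [irrational_iff_ne_rational]
  intro p q hq h
  have h2 : 0 < Real.log 2 := Real.log_pos (by norm_num)
  have h3 : 0 < Real.log 3 := Real.log_pos (by norm_num)
  have hqR : (q : ℝ) ≠ 0 := by exact_mod_cast hq
  rw [div_eq_div_iff h2.ne' hqR] at h
  -- `log 3 * q = p * log 2`
  have hpos : 0 < Real.log 3 / Real.log 2 := div_pos h3 h2
  have key : Real.log 3 * (q.natAbs : ℝ) = (p.natAbs : ℝ) * Real.log 2 := by
    have hq' : ((q.natAbs : ℕ) : ℝ) = |(q : ℝ)| := by
      rw [Nat.cast_natAbs, Int.cast_abs]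
    have hp' : ((p.natAbs : ℕ) : ℝ) = |(p : ℝ)| := by
      rw [Nat.cast_natAbs, Int.cast_abs]
    rw [hq', hp', ← abs_of_pos h3, ← abs_mul, h, abs_mul, abs_of_pos h2]
  have e1 : Real.log ((3 : ℝ) ^ q.natAbs) = Real.log ((2 : ℝ) ^ p.natAbs) := by
    rw [Real.log_pow, Real.log_pow]
    linarith
  have e2 : (3 : ℝ) ^ q.natAbs = (2 : ℝ) ^ p.natAbs :=
    Real.log_injOn_pos (Set.mem_Ioi.mpr (by positivity)) (Set.mem_Ioi.mpr (by positivity)) e1
  have e3 : (3 : ℕ) ^ q.natAbs = 2 ^ p.natAbs := by exact_mod_cast e2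
  have hq1 : q.natAbs ≠ 0 := by simpa using hq
  have hp1 : p.natAbs ≠ 0 := by
    intro hp
    rw [hp, pow_zero] at e3
    have : 3 ^ 1 ≤ 3 ^ q.natAbs := Nat.pow_le_pow_right (by norm_num) (Nat.one_le_iff_ne_zero.mpr hq1)
    omega
  have : Even ((3 : ℕ) ^ q.natAbs) := by
    rw [e3]
    exact (Nat.even_pow.mpr ⟨even_two, hp1⟩)
  exact (Nat.not_even_iff_odd.mpr (Odd.pow (by decide : Odd 3))) this

/-- P6: windows for `2 ^ a * 3 ^ b`. -/
theorem window (η : ℝ) (hη : 0 < η) :
    ∃ L : ℕ, 0 < L ∧ ∀ (U : ℝ) (b0 : ℕ), ((b0 : ℝ) + L) * Real.log 3 ≤ U →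
      ∃ a b : ℕ, b0 ≤ b ∧ b < b0 + L ∧ U ≤ a * Real.log 2 + b * Real.log 3 ∧
        a * Real.log 2 + b * Real.log 3 < U + η :=
  exists_window (Real.log_pos (by norm_num)) (Real.log_pos (by norm_num)) irrational_log hη

/-- P6, congruence version: `a` and `b` in given classes modulo `m`. -/
theorem window_mod (m : ℕ) (hm : 0 < m) (η : ℝ) (hη : 0 < η) :
    ∃ U0 : ℝ, ∀ U : ℝ, U0 ≤ U → ∀ α β : ℕ, α < m → β < m →
      ∃ a b : ℕ, a % m = α ∧ b % m = β ∧ U ≤ a * Real.log 2 + b * Real.log 3 ∧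
        a * Real.log 2 + b * Real.log 3 < U + η := by
  have h2 : 0 < Real.log 2 := Real.log_pos (by norm_num)
  have h3 : 0 < Real.log 3 := Real.log_pos (by norm_num)
  have hmR : (0 : ℝ) < m := by exact_mod_cast hm
  have hirr : Irrational ((m * Real.log 3) / (m * Real.log 2)) := by
    rw [mul_div_mul_left _ _ hmR.ne']
    exact irrational_log
  obtain ⟨L, hL, h⟩ := exists_window (X := m * Real.log 2) (Y := m * Real.log 3) (by positivity) (by positivity)
    hirr hη
  refine ⟨L * (m * Real.log 3) + m * Real.log 2 + m * Real.log 3, ?_⟩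
  intro U hU α β hα hβ
  have hαR : (α : ℝ) * Real.log 2 ≤ m * Real.log 2 := mul_le_mul_of_nonneg_right (by exact_mod_cast hα.le) h2.le
  have hβR : (β : ℝ) * Real.log 3 ≤ m * Real.log 3 := mul_le_mul_of_nonneg_right (by exact_mod_cast hβ.le) h3.le
  obtain ⟨a, b, -, -, h4, h5⟩ := h (U - α * Real.log 2 - β * Real.log 3) 0 (by
    push_cast
    linarith)
  refine ⟨α + m * a, β + m * b, ?_, ?_, ?_, ?_⟩
  · rw [Nat.add_mul_mod_self_left, Nat.mod_eq_of_lt hα]
  · rw [Nat.add_mul_mod_self_left, Nat.mod_eq_of_lt hβ]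
  · push_cast
    linarith
  · push_cast
    linarith

end Pool.Agent.Helper53.MX
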